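import Pool.Agent.Q273.MV.Stm5

/-! Job UBI of the project MV of helper273. -/

set_option autoImplicit false

open MeasureTheory Filter Topology
open scoped NNReal ENNReal

namespace Pool.Agent.Q61.MV

/-- a maximal separated set -/
theorem sep_net {E : Type} [NormedAddCommGroup E] [NormedSpace ℝ E] [FiniteDimensional ℝ E]
    (Z : Set E) (hZ : Bornology.IsBounded Z) (ρ : ℝ) (hρ : 0 < ρ) :
    ∃ P : Finset E, (∀ p ∈ P, p ∈ Z) ∧ (∀ p ∈ P, ∀ p' ∈ P, p ≠ p' → ρ ≤ dist p p') ∧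
      ∀ z ∈ Z, ∃ p ∈ P, dist z p ≤ ρ := by
  have _ : ProperSpace E := FiniteDimensional.proper ℝ E
  obtain ⟨ε, hε⟩ : ∃ ε : ℝ≥0, (ε : ℝ) = ρ := ⟨⟨ρ, hρ.le⟩, rfl⟩
  have hε0 : ε / 2 ≠ 0 := by
    have : ε ≠ 0 := by
      rintro rfl
      rw [NNReal.coe_zero] at hε
      linarith
    positivity
  have htb : TotallyBounded Z := (hZ.isCompact_closure.totallyBounded).subset subset_closure
  have hfin : Metric.packingNumber ε Z ≠ ⊤ := by
    obtain ⟨S, hS, hSf, hSc⟩ := Metric.exists_finite_isCover_of_totallyBounded hε0 htb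
    have h1 := Metric.packingNumber_two_mul_le_externalCoveringNumber (ε / 2) Z
    rw [mul_div_cancel₀ _ two_ne_zero] at h1
    have h2 := hSc.externalCoveringNumber_le_encard
    exact ne_top_of_le_ne_top (Set.encard_ne_top_iff.2 hSf) (h1.trans h2)
  have h3 : (Metric.maximalSeparatedSet ε Z).Finite := by
    rw [← Set.encard_ne_top_iff, Metric.encard_maximalSeparatedSet hfin]
    exact hfin
  refine ⟨h3.toFinset, fun p hp => ?_, fun p hp p' hp' hne => ?_, fun z hz => ?_⟩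
  · exact Metric.maximalSeparatedSet_subset (h3.mem_toFinset.1 hp)
  · have h4 := Metric.isSeparated_maximalSeparatedSet (h3.mem_toFinset.1 hp)
      (h3.mem_toFinset.1 hp') hne
    have h5 : (ε : ℝ≥0∞) < edist p p' := h4
    rw [edist_nndist, ENNReal.coe_lt_coe] at h5
    have h6 : (ε : ℝ) < dist p p' := by
      rw [← coe_nndist]
      exact_mod_cast h5
    rw [← hε]
    exact h6.le
  · obtain ⟨p, hp, hzp⟩ := Metric.isCover_maximalSeparatedSet hfin hz
    refine ⟨p, h3.mem_toFinset.2 hp, ?_⟩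
    have h5 : edist z p ≤ (ε : ℝ≥0∞) := hzp
    rw [edist_nndist, ENNReal.coe_le_coe] at h5
    rw [← hε, ← coe_nndist]
    exact_mod_cast h5

/-- the sets `F m` fill at least half of every ball of a given size -/
theorem fill {E : Type} [NormedAddCommGroup E] [NormedSpace ℝ E] [FiniteDimensional ℝ E]
    [MeasurableSpace E] [BorelSpace E] (μ : Measure E) [μ.IsAddHaarMeasure] (c0 : E) (R0 R : ℝ)
    (hR : 0 < R) (F : ℕ → Set E) (hF : Monotone F) (hae : ∀ᵐ ξ ∂μ, ∃ m, ξ ∈ F m) :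
    ∃ m, ∀ c : E, Metric.closedBall c R ⊆ Metric.closedBall c0 R0 →
      μ (Metric.closedBall 0 R) / 2 ≤ μ (F m ∩ Metric.closedBall c R) := by
  have _ : ProperSpace E := FiniteDimensional.proper ℝ E
  obtain ⟨v, hv⟩ : ∃ v, v = μ (Metric.closedBall (0 : E) R) := ⟨_, rfl⟩
  have hv0 : 0 < v := by
    rw [hv]
    exact Metric.measure_closedBall_pos μ 0 hR
  have hvt : v ≠ ⊤ := by
    rw [hv]
    exact (isCompact_closedBall _ _).measure_lt_top.ne
  obtain ⟨W, hW⟩ : ∃ W, W = μ (Metric.closedBall c0 R0) := ⟨_, rfl⟩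
  have hWt : W ≠ ⊤ := by
    rw [hW]
    exact (isCompact_closedBall _ _).measure_lt_top.ne
  have hlim : Tendsto (fun m => μ (F m ∩ Metric.closedBall c0 R0)) atTop (𝓝 W) := by
    have h1 : Monotone fun m => F m ∩ Metric.closedBall c0 R0 :=
      fun a b hab => Set.inter_subset_inter_left _ (hF hab)
    have h2 := tendsto_measure_iUnion_atTop (μ := μ) h1
    have h3 : μ (⋃ m, F m ∩ Metric.closedBall c0 R0) = W := by
      rw [hW, ← Set.iUnion_inter]
      refine measure_congr ?_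
      have h4 : (⋃ m, F m : Set E) =ᵐ[μ] (Set.univ : Set E) := by
        rw [Filter.eventuallyEq_univ]
        filter_upwards [hae] with ξ hξ
        exact Set.mem_iUnion.2 hξ
      have h5 := h4.inter (ae_eq_refl (Metric.closedBall c0 R0))
      rwa [Set.univ_inter] at h5
    rw [h3] at h2
    exact h2
  have hex : ∃ m, W ≤ μ (F m ∩ Metric.closedBall c0 R0) + v / 2 := by
    by_cases hW0 : W = 0
    · exact ⟨0, by rw [hW0]; exact zero_le⟩
    · have h1 : W - v / 2 < W :=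
        ENNReal.sub_lt_self hWt hW0 (ENNReal.half_pos hv0.ne').ne'
      obtain ⟨m, hm⟩ := (hlim.eventually (lt_mem_nhds h1)).exists
      exact ⟨m, tsub_le_iff_right.1 hm.le⟩
  obtain ⟨m, hm⟩ := hex
  refine ⟨m, fun c hc => ?_⟩
  have hB : μ (Metric.closedBall c R) = v := by
    rw [hv, Measure.addHaar_closedBall_center]
  have h1 : F m ∩ Metric.closedBall c0 R0 ⊆
      (F m ∩ Metric.closedBall c R) ∪ (Metric.closedBall c0 R0 \ Metric.closedBall c R) := by
    rintro x ⟨hx1, hx2⟩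
    by_cases hx3 : x ∈ Metric.closedBall c R
    · exact Or.inl ⟨hx1, hx3⟩
    · exact Or.inr ⟨hx2, hx3⟩
  have h2 := (measure_mono h1).trans (measure_union_le (μ := μ) _ _)
  have h3 : μ (Metric.closedBall c0 R0 \ Metric.closedBall c R) = W - v := by
    rw [measure_sdiff hc Metric.isClosed_closedBall.measurableSet.nullMeasurableSet (by rwa [hB]),
      hB, hW]
  have hvW : v ≤ W := by
    rw [← hB, hW]
    exact measure_mono hc
  rw [h3] at h2
  have h4 : (W - v) + v ≤ (W - v) + (μ (F m ∩ Metric.closedBall c R) + v / 2) := by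
    rw [tsub_add_cancel_of_le hvW]
    refine hm.trans ?_
    refine (add_le_add_left h2 _).trans (le_of_eq ?_)
    ring
  have h5 : v ≤ μ (F m ∩ Metric.closedBall c R) + v / 2 :=
    (ENNReal.add_le_add_iff_left (ne_top_of_le_ne_top hWt tsub_le_self)).1 h4
  have h6 : v / 2 + v / 2 ≤ μ (F m ∩ Metric.closedBall c R) + v / 2 := by
    rwa [ENNReal.add_halves]
  rw [← hv]
  exact (ENNReal.add_le_add_iff_right (ENNReal.div_ne_top hvt two_ne_zero)).1 h6

theorem ubi (h : Q273.MV.S_CANTOR) : Q273.MV.S_UBI := by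
  intro E _ _ _ _ _ μ _ c0 R0 s τ β Y F hR0 hs hβ hβτ hsτ hF hae hY
  have _ : ProperSpace E := FiniteDimensional.proper ℝ E
  have hτ : 0 < τ := hβ.trans hβτ
  have hs' : 0 < (s : ℝ) := by exact_mod_cast hs
  have hsd : (s : ℝ) < Module.finrank ℝ E := by
    have h0 : (0 : ℝ) ≤ Module.finrank ℝ E := Nat.cast_nonneg _
    have h1 : (s : ℝ) * τ < (Module.finrank ℝ E : ℝ) * τ :=
      lt_of_lt_of_le hsτ (mul_le_mul_of_nonneg_left hβτ.le h0)
    exact lt_of_mul_lt_mul_right h1 hτ.le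
  have key := h E c0 R0 (1 / (2 * 4 ^ Module.finrank ℝ E)) s
    (fun n => {ξ | ∃ t : ℝ, (n : ℝ) ≤ t ∧ ∃ y ∈ Y n t, ‖ξ - y‖ ≤ Real.exp (-(τ * t))}) hR0
    (by positivity) hs hsd ?_
  · have e1 : (⋂ n : ℕ, {ξ : E | ∃ t : ℝ, (n : ℝ) ≤ t ∧ ∃ y ∈ Y n t,
        ‖ξ - y‖ ≤ Real.exp (-(τ * t))}) =
        {ξ | ∀ n : ℕ, ∃ t : ℝ, (n : ℝ) ≤ t ∧ ∃ y ∈ Y n t, ‖ξ - y‖ ≤ Real.exp (-(τ * t))} := by
      ext ξ
      simp only [Set.mem_iInter]
      exact Iff.rfl
    rw [e1] at key
    exact key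
  intro n R M hR hRR
  obtain ⟨m, hm⟩ := fill μ c0 R0 (R / 2) (by positivity) (F n) (hF n) (hae n)
  obtain ⟨t1, ht1⟩ := hY n m
  -- the choice of `t`
  have hκ : 0 < (Module.finrank ℝ E : ℝ) * β - s * τ := by linarith
  have g1 : ∀ᶠ t : ℝ in atTop, M * 4 ^ Module.finrank ℝ E ≤
      Real.exp (((Module.finrank ℝ E : ℝ) * β - s * τ) * t) :=
    (Real.tendsto_exp_atTop.comp (tendsto_id.const_mul_atTop hκ)).eventually_ge_atTop _
  have g2 : ∀ᶠ t : ℝ in atTop, Real.exp (-(β * t)) ≤ R / 4 := by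
    have e1 : Tendsto (fun t : ℝ => Real.exp (-(β * t))) atTop (𝓝 0) :=
      Real.tendsto_exp_neg_atTop_nhds_zero.comp (tendsto_id.const_mul_atTop hβ)
    exact e1.eventually (ge_mem_nhds (by positivity))
  obtain ⟨t, k1, k2, k3, k4, k5⟩ := (g1.and (g2.and ((eventually_ge_atTop t1).and
    ((eventually_ge_atTop (n : ℝ)).and (eventually_ge_atTop 0))))).exists
  obtain ⟨ρ, hρ⟩ : ∃ ρ, ρ = 4 * Real.exp (-(β * t)) := ⟨_, rfl⟩
  obtain ⟨r, hr⟩ : ∃ r, r = Real.exp (-(τ * t)) := ⟨_, rfl⟩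
  have hρ0 : 0 < ρ := by rw [hρ]; positivity
  have hr0 : 0 < r := by rw [hr]; positivity
  have h4r : 4 * r ≤ ρ := by
    rw [hρ, hr]
    refine mul_le_mul_of_nonneg_left (Real.exp_le_exp.2 ?_) (by norm_num)
    have := mul_le_mul_of_nonneg_right hβτ.le k5
    linarith
  have hρR : ρ ≤ R := by
    rw [hρ]
    linarith
  refine ⟨ρ, r, hr0, h4r, hρR, ?_, fun c hc => ?_⟩
  · have e1 : r ^ (s : ℝ) = Real.exp (-(τ * t) * s) := by
      rw [hr, ← Real.exp_mul]
    have e2 : ρ ^ (-(Module.finrank ℝ E : ℝ)) =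
        (1 / 4 ^ Module.finrank ℝ E) * Real.exp (β * t * Module.finrank ℝ E) := by
      rw [hρ, Real.mul_rpow (by norm_num) (Real.exp_pos _).le, ← Real.exp_mul,
        Real.rpow_neg (by norm_num), Real.rpow_natCast]
      congr 1
      · rw [one_div]
      · congr 1
        ring
    rw [e1, e2]
    have e3 : Real.exp (-(τ * t) * s) *
        ((1 / 4 ^ Module.finrank ℝ E) * Real.exp (β * t * Module.finrank ℝ E)) =
        Real.exp (((Module.finrank ℝ E : ℝ) * β - s * τ) * t) / 4 ^ Module.finrank ℝ E := by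
      have e4 : Real.exp (((Module.finrank ℝ E : ℝ) * β - s * τ) * t) =
          Real.exp (-(τ * t) * s) * Real.exp (β * t * Module.finrank ℝ E) := by
        rw [← Real.exp_add]
        congr 1
        ring
      rw [e4]
      ring
    rw [e3, le_div_iff₀ (by positivity)]
    exact k1
  · obtain ⟨Z, hZ⟩ : ∃ Z : Set E, Z = {y | y ∈ Y n t ∧ ∃ ξ ∈ F n m ∩ Metric.closedBall c (R / 2),
        ‖ξ - y‖ ≤ Real.exp (-(β * t))} := ⟨_, rfl⟩
    have hZmem : ∀ y, y ∈ Z ↔ y ∈ Y n t ∧ ∃ ξ ∈ F n m ∩ Metric.closedBall c (R / 2),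
        ‖ξ - y‖ ≤ Real.exp (-(β * t)) := by
      intro y
      rw [hZ]
      exact Iff.rfl
    have hZc : ∀ y ∈ Z, dist y c ≤ R / 2 + ρ / 4 := by
      intro y hy
      obtain ⟨-, ξ, hξ, hξy⟩ := (hZmem y).1 hy
      have e1 : dist ξ c ≤ R / 2 := Metric.mem_closedBall.1 hξ.2
      have e2 : dist y ξ ≤ ρ / 4 := by
        rw [dist_comm, dist_eq_norm, hρ]
        linarith
      linarith [dist_triangle y ξ c]
    have hZb : Bornology.IsBounded Z :=
      (Metric.isBounded_closedBall (x := c) (r := R / 2 + ρ / 4)).subset fun y hy =>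
        Metric.mem_closedBall.2 (hZc y hy)
    obtain ⟨P, hP1, hP2, hP3⟩ := sep_net Z hZb ρ hρ0
    have hcR : Metric.closedBall c (R / 2) ⊆ Metric.closedBall c0 R0 :=
      (Metric.closedBall_subset_closedBall (by linarith)).trans hc
    refine ⟨P, ?_, fun p hp => ?_, hP2⟩
    · -- the measure estimate
      have f1 := hm c hcR
      have f2 : F n m ∩ Metric.closedBall c (R / 2) ⊆ ⋃ p ∈ P, Metric.closedBall p (2 * ρ) := by
        intro ξ hξ
        obtain ⟨y, hy, hξy⟩ := ht1 t k3 ξ hξ.1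
        have hyZ : y ∈ Z := (hZmem y).2 ⟨hy, ξ, hξ, hξy⟩
        obtain ⟨p, hp, hyp⟩ := hP3 y hyZ
        refine Set.mem_iUnion₂.2 ⟨p, hp, Metric.mem_closedBall.2 ?_⟩
        have e2 : dist ξ y ≤ ρ / 4 := by
          rw [dist_eq_norm, hρ]
          linarith
        linarith [dist_triangle ξ y p]
      have f3 := (measure_mono f2).trans (measure_biUnion_finset_le (μ := μ) P _)
      have f4 : ∀ p ∈ P, μ (Metric.closedBall p (2 * ρ)) =
          ENNReal.ofReal ((2 * ρ) ^ Module.finrank ℝ E) * μ (Metric.ball 0 1) :=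
        fun p _ => Measure.addHaar_closedBall μ p (by positivity)
      rw [Finset.sum_congr rfl f4, Finset.sum_const, nsmul_eq_mul] at f3
      have f5 := f1.trans f3
      rw [Measure.addHaar_closedBall μ 0 (by positivity : 0 ≤ R / 2)] at f5
      have hb0 : μ (Metric.ball (0 : E) 1) ≠ 0 := (Metric.measure_ball_pos μ 0 one_pos).ne'
      have hbt : μ (Metric.ball (0 : E) 1) ≠ ⊤ := measure_ball_lt_top.ne
      have f6 : ENNReal.ofReal ((R / 2) ^ Module.finrank ℝ E / 2) ≤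
          ENNReal.ofReal (P.card * (2 * ρ) ^ Module.finrank ℝ E) := by
        rw [ENNReal.ofReal_mul (Nat.cast_nonneg _), ENNReal.ofReal_natCast,
          ENNReal.ofReal_div_of_pos two_pos, ENNReal.ofReal_ofNat]
        refine (ENNReal.mul_le_mul_iff_left hb0 hbt).1 ?_
        refine Eq.trans_le ?_ (f5.trans (le_of_eq ?_))
        · generalize ENNReal.ofReal ((R / 2) ^ Module.finrank ℝ E) = a
          rw [div_eq_mul_inv, div_eq_mul_inv]
          ring
        · ring
      have f7 : (R / 2) ^ Module.finrank ℝ E / 2 ≤ P.card * (2 * ρ) ^ Module.finrank ℝ E :=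
        (ENNReal.ofReal_le_ofReal_iff (by positivity)).1 f6
      have f8 : 1 / (2 * 4 ^ Module.finrank ℝ E) * (R / ρ) ^ Module.finrank ℝ E =
          ((R / 2) ^ Module.finrank ℝ E / 2) / (2 * ρ) ^ Module.finrank ℝ E := by
        rw [show (4 : ℝ) = 2 * 2 by norm_num, mul_pow, mul_pow, div_pow, div_pow]
        field_simp
      rw [f8, div_le_iff₀ (by positivity)]
      exact f7
    · have e1 := hZc p (hP1 p hp)
      refine Set.subset_inter ?_ ?_
      · intro ξ hξ
        have e2 := Metric.mem_closedBall.1 hξ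
        rw [dist_eq_norm, hr] at e2
        exact ⟨t, k4, p, ((hZmem p).1 (hP1 p hp)).1, e2⟩
      · intro ξ hξ
        have e2 := Metric.mem_closedBall.1 hξ
        refine Metric.mem_closedBall.2 ?_
        linarith [dist_triangle ξ p c]

end Pool.Agent.Q61.MV
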