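import Pool.Agent.Q273.MV.Stm

/-! Job SUM of project MV. -/

namespace Pool.Agent.Q61.MV

open Q273.MV

theorem summ : S_SUM := by
  intro T S H s t C hst ht h1 hC
  have hC0 : 0 ≤ C := by
    have := (hC 1 le_rfl).2
    rw [Real.one_rpow, mul_one] at this
    exact (Nat.cast_nonneg _).trans this
  set m : S → ℕ := fun x => Nat.log 2 ⌊H x⌋₊ with hm
  have hfl : ∀ x : S, ⌊H x⌋₊ ≠ 0 := fun x => by
    have := (Nat.one_le_floor_iff (H x)).2 (h1 x x.2)
    omega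
  have hm1 : ∀ x : S, (2:ℝ) ^ (m x) ≤ H x := fun x => by
    have h2 : 2 ^ (m x) ≤ ⌊H x⌋₊ := Nat.pow_log_le_self 2 (hfl x)
    have h3 : ((⌊H x⌋₊ : ℕ) : ℝ) ≤ H x := Nat.floor_le (zero_le_one.trans (h1 x x.2))
    refine le_trans ?_ h3
    exact_mod_cast h2
  have hm2 : ∀ x : S, H x ≤ (2:ℝ) ^ (m x + 1) := fun x => by
    have h2 : ⌊H x⌋₊ < 2 ^ (m x + 1) := Nat.lt_pow_succ_log_self one_lt_two _
    have h3 : H x < (⌊H x⌋₊ : ℝ) + 1 := Nat.lt_floor_add_one _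
    have h4 : ((⌊H x⌋₊ : ℕ) : ℝ) + 1 ≤ (2:ℝ) ^ (m x + 1) := by exact_mod_cast h2
    exact h3.le.trans h4
  set q : ℝ := (2:ℝ) ^ (s - t) with hq
  have hq0 : 0 < q := Real.rpow_pos_of_pos two_pos _
  have hq1 : q < 1 := Real.rpow_lt_one_of_one_lt_of_neg one_lt_two (sub_neg.2 hst)
  refine summable_of_sum_le (c := C * 2 ^ s * (1 - q)⁻¹)
    (fun x => Real.rpow_nonneg (zero_le_one.trans (h1 x x.2)) _) fun F => ?_
  have hF1 : ∑ x ∈ F, (H x) ^ (-t) ≤ ∑ x ∈ F, ((2:ℝ) ^ (-t)) ^ (m x) := by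
    refine Finset.sum_le_sum fun x _ => ?_
    have h2 : ((2:ℝ) ^ (-t)) ^ (m x) = ((2:ℝ) ^ (m x)) ^ (-t) := by
      rw [← Real.rpow_natCast, ← Real.rpow_natCast, ← Real.rpow_mul two_pos.le,
        ← Real.rpow_mul two_pos.le, mul_comm]
    rw [h2]
    exact Real.rpow_le_rpow_of_nonpos (by positivity) (hm1 x) (by linarith)
  refine hF1.trans ?_
  rw [← Finset.sum_fiberwise_of_maps_to (s := F) (t := F.image m) (g := m)
    (fun x hx => Finset.mem_image_of_mem _ hx)]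
  have hF2 : ∀ k ∈ F.image m, ∑ x ∈ F.filter (fun x => m x = k), ((2:ℝ) ^ (-t)) ^ (m x) ≤
      C * 2 ^ s * q ^ k := by
    intro k _
    have h2 : ∑ x ∈ F.filter (fun x => m x = k), ((2:ℝ) ^ (-t)) ^ (m x) =
        ((F.filter (fun x => m x = k)).card : ℝ) * ((2:ℝ) ^ (-t)) ^ k := by
      rw [Finset.sum_congr rfl (g := fun _ => ((2:ℝ) ^ (-t)) ^ k) (fun x hx => by
        rw [(Finset.mem_filter.1 hx).2]), Finset.sum_const, nsmul_eq_mul]
    rw [h2]
    have h3 := hC ((2:ℝ) ^ (k + 1)) (one_le_pow₀ one_le_two)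
    have h4 : (F.filter (fun x => m x = k)).card ≤
        {x | x ∈ S ∧ H x ≤ (2:ℝ) ^ (k + 1)}.ncard := by
      rw [← Finset.card_map (Function.Embedding.subtype _), ← Set.ncard_coe_finset]
      refine Set.ncard_le_ncard ?_ h3.1
      intro x hx
      rw [Finset.mem_coe, Finset.mem_map] at hx
      obtain ⟨y, hy, rfl⟩ := hx
      refine ⟨y.2, ?_⟩
      have := hm2 y
      rw [(Finset.mem_filter.1 hy).2] at this
      exact this
    have h5 : ((F.filter (fun x => m x = k)).card : ℝ) ≤ C * ((2:ℝ) ^ (k + 1)) ^ s :=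
      (Nat.cast_le.2 h4).trans h3.2
    have h6 : C * ((2:ℝ) ^ (k + 1)) ^ s * ((2:ℝ) ^ (-t)) ^ k = C * 2 ^ s * q ^ k := by
      rw [hq]
      have e1 : ((2:ℝ) ^ (k + 1)) ^ s = 2 ^ s * (2:ℝ) ^ ((k : ℝ) * s) := by
        rw [← Real.rpow_natCast, ← Real.rpow_mul two_pos.le, ← Real.rpow_add two_pos]
        congr 1
        push_cast
        ring
      have e2 : ((2:ℝ) ^ (-t)) ^ k = (2:ℝ) ^ ((k : ℝ) * (-t)) := by
        rw [← Real.rpow_natCast, ← Real.rpow_mul two_pos.le]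
        congr 1
        ring
      have e3 : ((2:ℝ) ^ (s - t)) ^ k = (2:ℝ) ^ ((k : ℝ) * s) * (2:ℝ) ^ ((k : ℝ) * (-t)) := by
        rw [← Real.rpow_natCast, ← Real.rpow_mul two_pos.le, ← Real.rpow_add two_pos]
        congr 1
        ring
      rw [e1, e2, e3]
      ring
    rw [← h6]
    exact mul_le_mul_of_nonneg_right h5 (by positivity)
  refine (Finset.sum_le_sum hF2).trans ?_
  rw [← Finset.mul_sum]
  refine mul_le_mul_of_nonneg_left ?_ (by positivity)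
  rw [← tsum_geometric_of_lt_one hq0.le hq1]
  exact (summable_geometric_of_lt_one hq0.le hq1).sum_le_tsum _ fun _ _ => by positivity

end Pool.Agent.Q61.MV
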